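import Pool.Agent.Helper45.PQ.StB

/-!
# Project PQ (MP_a1f43d_co): module ONB (one heavy point, position codes)
-/

set_option autoImplicit false

open Module Classical
open scoped LinearAlgebra.Projectivization

namespace Pool.Agent.Helper81.PQ

open Pool.Agent.Helper45.PQ
open Pool.Agent.Helper53.PB (tt line)

universe u v

section lin

variable {F : Type u} {V : Type v} [Field F] [AddCommGroup V] [Module F V]

/-- a subspace is contained in subspaces of all larger dimensions -/
theorem ex_sub [FiniteDimensional F V] (S : Submodule F V) : ∀ k : ℕ,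
    finrank F S + k ≤ finrank F V → ∃ W : Submodule F V, S ≤ W ∧ finrank F W = finrank F S + k := by
  intro k
  induction k with
  | zero => exact fun _ => ⟨S, le_rfl, rfl⟩
  | succ k ih =>
    intro hk
    obtain ⟨W, hSW, hW⟩ := ih (by omega)
    have hne : W ≠ ⊤ := by
      rintro rfl
      rw [finrank_top] at hW
      omega
    obtain ⟨v, hv⟩ : ∃ v, v ∉ W := by
      by_contra hcon
      push Not at hcon
      exact hne (eq_top_iff.2 fun v _ => hcon v)
    refine ⟨W ⊔ Submodule.span F {v}, hSW.trans le_sup_left, ?_⟩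
    have h1 := Submodule.finrank_sup_add_finrank_inf_eq W (Submodule.span F {v})
    have hv0 : v ≠ 0 := fun h => hv (h ▸ W.zero_mem)
    rw [finrank_span_singleton hv0] at h1
    have h2 : W ⊓ Submodule.span F {v} = ⊥ := by
      rw [eq_bot_iff]
      intro x hx
      obtain ⟨c, rfl⟩ := Submodule.mem_span_singleton.1 hx.2
      by_contra hc
      have hc0 : c ≠ 0 := fun h => hc (by rw [h, zero_smul]; exact Submodule.zero_mem _)
      exact hv ((Submodule.smul_mem_iff W hc0).1 hx.1)
    rw [h2, finrank_bot] at h1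
    omega

end lin

theorem hONB (h1 : StDGT.{u, v}) (h2 : StRKA.{u, v}) : StONB.{u, v} := by
  intro F _ _ V _ _ _ _ Q T H m h j c R hR
  subst hR
  have hF : Fintype F := Fintype.ofFinite F
  have hRH : R ∈ ({R} : Finset (ℙ F V)) := Finset.mem_singleton_self R
  have hr : Q R.rep = 0 := c.sH R hRH
  have hr0 : R.rep ≠ 0 := R.rep_nonzero
  have hRT : R ∉ T := c.dis R hRH
  have hmR : m R = j := by
    have := c.ms
    rwa [Finset.sum_singleton] at this
  have hq := c.hq
  have hh := c.h1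
  -- DGT (2)
  have hZ : ∀ z ∈ T, QuadraticMap.polar Q R.rep z.rep ≠ 0 → ∀ P ∈ T, P ≠ z →
      QuadraticMap.polar Q z.rep P.rep ≠ 0 := by
    intro z hz hrz P hP hPz h0
    have h3 := (h1 F V Q T {R} m h j c).2.1 z hz
    have h4 : ({R} : Finset (ℙ F V)).filter
        (fun R => QuadraticMap.polar Q z.rep R.rep = 0) = ∅ := by
      rw [Finset.filter_singleton, if_neg]
      rwa [QuadraticMap.polar_comm]
    rw [h4, Finset.sum_empty] at h3
    have h5 : P ∈ T.filter (fun X => X ≠ z ∧ QuadraticMap.polar Q z.rep X.rep = 0) :=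
      Finset.mem_filter.2 ⟨hP, hPz, h0⟩
    have h6 := Finset.card_pos.2 ⟨P, h5⟩
    omega
  -- lines through R
  have hL : ∀ y ∈ T, QuadraticMap.polar Q R.rep y.rep = 0 → tt T (line y R) = 1 + j := by
    intro y hy h0
    rw [c.ln y hy R (fun h => hRT (h ▸ hy)) hr (by rwa [QuadraticMap.polar_comm])]
    unfold mass
    rw [Finset.filter_singleton, if_pos (Pool.Agent.Helper53.PB.right_mem_line y R),
      Finset.sum_singleton, hmR]
  obtain ⟨r, hrd⟩ : ∃ r : V, r = R.rep := ⟨_, rfl⟩
  rw [← hrd] at hr hr0 hZ hL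
  have hrr : QuadraticMap.polar Q r r = 0 := by rw [polar_self_two, hr, mul_zero]
  obtain ⟨w, hw⟩ : ∃ w, QuadraticMap.polar Q w r = 1 := by
    by_contra hcon
    push Not at hcon
    apply hr0
    apply c.qd.nd
    intro y
    by_contra hy
    apply hcon ((QuadraticMap.polar Q r y)⁻¹ • y)
    rw [QuadraticMap.polar_smul_left, QuadraticMap.polar_comm Q y, smul_eq_mul,
      inv_mul_cancel₀ hy]
  have hw' : QuadraticMap.polar Q r w = 1 := by rw [QuadraticMap.polar_comm, hw]
  obtain ⟨pr, hpr⟩ : ∃ pr : V →ₗ[F] V, ∀ y, pr y = y - QuadraticMap.polar Q w y • r := by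
    refine ⟨LinearMap.id - (QuadraticMap.polarBilin Q w).smulRight r, ?_⟩
    intro y
    simp
  have hprr : pr r = 0 := by rw [hpr, hw, one_smul, sub_self]
  have hprL : ∀ y, QuadraticMap.polar Q r y = 0 → QuadraticMap.polar Q r (pr y) = 0 := by
    intro y hy
    rw [hpr, QuadraticMap.polar_sub_right, QuadraticMap.polar_smul_right, hy, hrr, smul_zero,
      sub_zero]
  have hprw : ∀ y, QuadraticMap.polar Q w (pr y) = 0 := by
    intro y
    rw [hpr, QuadraticMap.polar_sub_right, QuadraticMap.polar_smul_right, hw, smul_eq_mul,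
      mul_one, sub_self]
  have hprf : ∀ x y, QuadraticMap.polar Q r x = 0 → QuadraticMap.polar Q r y = 0 →
      QuadraticMap.polar Q (pr x) (pr y) = QuadraticMap.polar Q x y := by
    intro x y hx hy
    rw [hpr x, QuadraticMap.polar_sub_left, QuadraticMap.polar_smul_left, hprL y hy, smul_zero,
      sub_zero, hpr y, QuadraticMap.polar_sub_right, QuadraticMap.polar_smul_right,
      QuadraticMap.polar_comm Q x r, hx, smul_zero, sub_zero]
  have hprQ : ∀ x, QuadraticMap.polar Q r x = 0 → Q x = 0 → Q (pr x) = 0 := by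
    intro x hx hQ
    rw [hpr, sub_eq_add_neg, ← neg_smul, QuadraticMap.map_add Q, hQ, QuadraticMap.map_smul, hr,
      QuadraticMap.polar_smul_right, QuadraticMap.polar_comm Q x r, hx]
    simp
  have hpr0 : ∀ y : ℙ F V, pr y.rep = 0 → y = R := by
    intro y hy
    apply Pool.Agent.Helper53.PB.eq_of_rep_mem_span
    rw [hpr, sub_eq_zero] at hy
    rw [hy, ← hrd]
    exact Submodule.smul_mem _ _ (Submodule.mem_span_singleton_self _)
  -- the subspace L
  obtain ⟨L, hLd⟩ : ∃ L : Submodule F V, L = prp Q r ⊓ prp Q w := ⟨_, rfl⟩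
  have hL7 : finrank F L ≤ 7 := by
    have h3 : L < prp Q r := by
      rw [hLd]
      refine lt_of_le_of_ne inf_le_left ?_
      intro h4
      have h5 : r ∈ prp Q r := mem_prp.2 hrr
      rw [← h4] at h5
      have h6 := mem_prp.1 h5.2
      rw [hw] at h6
      exact one_ne_zero h6
    have h4 : prp Q r < ⊤ := by
      refine lt_of_le_of_ne le_top ?_
      intro h4
      have h5 : w ∈ (⊤ : Submodule F V) := Submodule.mem_top
      rw [← h4] at h5
      have h6 := mem_prp.1 h5
      rw [hw'] at h6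
      exact one_ne_zero h6
    have h5 := Submodule.finrank_lt_finrank_of_lt h3
    have h6 := Submodule.finrank_lt_finrank_of_lt h4
    rw [finrank_top, c.qd.hd] at h6
    omega
  obtain ⟨T₀, hT₀⟩ : ∃ T₀ : Finset (ℙ F V),
    T₀ = T.filter (fun P => QuadraticMap.polar Q r P.rep = 0) := ⟨_, rfl⟩
  have hmT₀ : ∀ y, y ∈ T₀ ↔ y ∈ T ∧ QuadraticMap.polar Q r y.rep = 0 := by
    intro y
    rw [hT₀, Finset.mem_filter]
  have hyR : ∀ y ∈ T, y ≠ R := fun y hy h => hRT (h ▸ hy)
  have hprn : ∀ y ∈ T, pr y.rep ≠ 0 := fun y hy h => hyR y hy (hpr0 y h)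
  have hnu : T₀.card = nu Q T R.rep := by rw [hT₀, hrd]; rfl
  have hlo := c.lo R hRH
  have hup := c.up R hRH
  rw [← hnu, hmR] at hlo hup
  -- the points of the projection
  obtain ⟨pt, hpt⟩ : ∃ pt : ℙ F V → ℙ F V, ∀ y ∈ T, ∃ a : F, a ≠ 0 ∧ (pt y).rep = a • pr y.rep := by
    refine ⟨fun y => if h : pr y.rep = 0 then y else Projectivization.mk F (pr y.rep) h, ?_⟩
    intro y hy
    obtain ⟨a, ha⟩ := Projectivization.exists_smul_eq_mk_rep F (pr y.rep) (hprn y hy)
    refine ⟨(a : F), a.ne_zero, ?_⟩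
    simp only
    rw [dif_neg (hprn y hy), ← ha, Units.smul_def]
  obtain ⟨J, hJ⟩ : ∃ J : Finset (ℙ F V), J = T₀.image pt := ⟨_, rfl⟩
  -- size of J
  have hJc : Nat.card F ^ 3 + 1 ≤ J.card := by
    have h3 : T₀.card ≤ (1 + j) * (T₀.image pt).card := by
      apply Finset.card_le_mul_card_image
      intro p hp
      obtain ⟨y, hy, rfl⟩ := Finset.mem_image.1 hp
      obtain ⟨hyT, hy0⟩ := (hmT₀ y).1 hy
      rw [← hL y hyT hy0]
      unfold tt
      apply Finset.card_le_card
      intro x hx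
      obtain ⟨hx1, hx2⟩ := Finset.mem_filter.1 hx
      obtain ⟨hxT, hx0⟩ := (hmT₀ x).1 hx1
      rw [Finset.mem_filter]
      refine ⟨hxT, ?_⟩
      obtain ⟨a, ha, hax⟩ := hpt x hxT
      obtain ⟨b, hb, hby⟩ := hpt y hyT
      rw [hx2, hby] at hax
      rw [Pool.Agent.Helper53.PB.mem_line, ← hrd]
      rw [hpr, hpr] at hax
      obtain ⟨fx, hfx⟩ : ∃ fx : F, fx = QuadraticMap.polar Q w x.rep := ⟨_, rfl⟩
      obtain ⟨fy, hfy⟩ : ∃ fy : F, fy = QuadraticMap.polar Q w y.rep := ⟨_, rfl⟩
      rw [← hfx, ← hfy] at hax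
      refine ⟨a⁻¹ * b, fx - a⁻¹ * (b * fy), ?_⟩
      have h4 : x.rep = a⁻¹ • (b • (y.rep - fy • r)) + fx • r := by
        rw [hax, inv_smul_smul₀ ha, sub_add_cancel]
      rw [h4]
      module
    rw [← hJ] at h3
    have h4 := hlo.trans h3
    exact Nat.le_of_mul_le_mul_left h4 (by omega)
  -- points of J are pairwise not perpendicular
  have hJn : ∀ y ∈ T₀, ∀ x ∈ T₀, pt y ≠ pt x → QuadraticMap.polar Q y.rep x.rep ≠ 0 := by
    intro y hy x hx hne h0
    obtain ⟨hyT, hy0⟩ := (hmT₀ y).1 hy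
    obtain ⟨hxT, hx0⟩ := (hmT₀ x).1 hx
    have hyx : x ≠ y := fun h => hne (by rw [h])
    have h3 := c.ln y hyT x hyx (c.sT x hxT) h0
    have h4 : 2 ≤ tt T (line y x) := by
      unfold tt
      rw [← Finset.card_pair (Ne.symm hyx)]
      apply Finset.card_le_card
      intro p hp
      rw [Finset.mem_insert, Finset.mem_singleton] at hp
      rw [Finset.mem_filter]
      rcases hp with rfl | rfl
      · exact ⟨hyT, Pool.Agent.Helper53.PB.left_mem_line _ _⟩
      · exact ⟨hxT, Pool.Agent.Helper53.PB.right_mem_line _ _⟩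
    have h5 : R.rep ∈ line y x := by
      by_contra hcon
      have h6 : mass ({R} : Finset (ℙ F V)) m (line y x) = 0 := by
        unfold mass
        rw [Finset.filter_singleton, if_neg hcon, Finset.sum_empty]
      omega
    rw [← hrd, Pool.Agent.Helper53.PB.mem_line] at h5
    obtain ⟨a, b, hab⟩ := h5
    obtain ⟨e, he, hey⟩ := hpt y hyT
    obtain ⟨d, hd, hdx⟩ := hpt x hxT
    have h6 : a • pr y.rep + b • pr x.rep = 0 := by
      rw [← map_smul, ← map_smul, ← map_add, hab, hprr]
    have hb : b ≠ 0 := by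
      rintro rfl
      rw [zero_smul, add_zero] at hab h6
      rcases smul_eq_zero.1 h6 with h7 | h7
      · rw [h7, zero_smul] at hab
        exact hr0 hab.symm
      · exact hprn y hyT h7
    apply hne
    symm
    apply Pool.Agent.Helper53.PB.eq_of_rep_mem_span
    rw [Submodule.mem_span_singleton, hdx, hey]
    refine ⟨-(d * b⁻¹ * a * e⁻¹), ?_⟩
    have h7 : pr x.rep = -(b⁻¹ * a) • pr y.rep := by
      have h8 : b⁻¹ • (a • pr y.rep + b • pr x.rep) = 0 := by rw [h6, smul_zero]
      rw [smul_add, inv_smul_smul₀ hb, smul_smul] at h8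
      rw [neg_smul]
      exact eq_neg_of_add_eq_zero_right h8
    rw [h7, smul_smul, smul_smul]
    congr 1
    field_simp
  -- the span of the projected points
  obtain ⟨B, hB⟩ : ∃ B : Set V, B = (fun y : ℙ F V => pr y.rep) '' (T₀ : Set (ℙ F V)) := ⟨_, rfl⟩
  have hBL : Submodule.span F B ≤ L := by
    rw [Submodule.span_le, hB]
    rintro _ ⟨y, hy, rfl⟩
    rw [hLd]
    exact ⟨mem_prp.2 (hprL _ ((hmT₀ y).1 hy).2), mem_prp.2 (hprw _)⟩
  have hBs : Submodule.span F B = L := by
    by_contra hne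
    have h3 : finrank F (Submodule.span F B) < 7 := by
      by_contra hcon
      exact hne (Submodule.eq_of_le_of_finrank_le hBL (by omega))
    obtain ⟨W, hW, hWd⟩ := ex_sub (Submodule.span F B) (6 - finrank F (Submodule.span F B)) (by
      rw [c.qd.hd]; omega)
    have h4 := (h2 F V Q h hq hh).2 W (by omega) J (by
      intro p hp
      rw [hJ] at hp
      obtain ⟨y, hy, rfl⟩ := Finset.mem_image.1 hp
      obtain ⟨hyT, hy0⟩ := (hmT₀ y).1 hy
      obtain ⟨a, ha, hay⟩ := hpt y hyT
      rw [hay, QuadraticMap.map_smul, hprQ _ hy0 (c.sT y hyT), smul_zero]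
      refine ⟨W.smul_mem _ (hW (Submodule.subset_span ?_)), rfl⟩
      rw [hB]
      exact ⟨y, hy, rfl⟩) (by
      intro p hp p' hp' hne
      rw [hJ] at hp hp'
      obtain ⟨y, hy, rfl⟩ := Finset.mem_image.1 hp
      obtain ⟨x, hx, rfl⟩ := Finset.mem_image.1 hp'
      obtain ⟨hyT, hy0⟩ := (hmT₀ y).1 hy
      obtain ⟨hxT, hx0⟩ := (hmT₀ x).1 hx
      obtain ⟨a, ha, hay⟩ := hpt y hyT
      obtain ⟨b, hb, hbx⟩ := hpt x hxT
      rw [hay, hbx, QuadraticMap.polar_smul_left, QuadraticMap.polar_smul_right,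
        hprf _ _ hy0 hx0]
      exact smul_ne_zero ha (smul_ne_zero hb (hJn y hy x hx hne)))
    have h5 : (21 : ℕ) ^ h < 27 ^ h := Nat.pow_lt_pow_left (by norm_num) (by omega)
    have h6 : Nat.card F ^ 3 = 27 ^ h := by
      rw [hq, ← pow_mul, mul_comm, pow_mul]
      norm_num
    omega
  -- a basis of L contained in B
  obtain ⟨b, hbB, hbs, hbi⟩ := exists_linearIndependent F B
  have hbf : Fintype b := Fintype.ofFinite b
  have hb7 : Fintype.card b ≤ 7 := by
    have h3 : finrank F (Submodule.span F (Set.range (Subtype.val : b → V))) =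
        Fintype.card b := finrank_span_eq_card hbi
    rw [Subtype.range_coe, hbs, hBs] at h3
    rw [← h3]
    exact hL7
  -- excluded values
  obtain ⟨G, hG⟩ : ∃ G : V → Finset F, ∀ u a, a ∈ G u ↔
      ∃ P ∈ T, ∃ e : F, e ≠ 0 ∧ P.rep = e • (u - a • r) :=
    ⟨fun u => Finset.univ.filter
      (fun a => ∃ P ∈ T, ∃ e : F, e ≠ 0 ∧ P.rep = e • (u - a • r)), fun u a => by simp⟩
  have hGc : ∀ u ∈ B, 1 + j ≤ (G u).card := by
    intro u hu
    rw [hB] at hu
    obtain ⟨y, hy, rfl⟩ := hu
    obtain ⟨hyT, hy0⟩ := (hmT₀ y).1 hy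
    rw [← hL y hyT hy0]
    unfold tt
    have h3 : ∀ P ∈ T.filter (fun P => P.rep ∈ line y R), ∃ α : F, ∃ e : F, e ≠ 0 ∧
        P.rep = e • (pr y.rep - α • r) := by
      intro P hP
      obtain ⟨hPT, hPl⟩ := Finset.mem_filter.1 hP
      obtain ⟨a, b', hab⟩ := Pool.Agent.Helper53.PB.mem_line.1 hPl
      rw [← hrd] at hab
      have h4 : pr P.rep = a • pr y.rep := by
        rw [← hab, map_add, map_smul, map_smul, hprr, smul_zero, add_zero]
      have ha : a ≠ 0 := by
        rintro rfl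
        rw [zero_smul] at h4
        exact hprn P hPT h4
      refine ⟨-(a⁻¹ * QuadraticMap.polar Q w P.rep), a, ha, ?_⟩
      rw [neg_smul, sub_neg_eq_add, smul_add, ← h4, smul_smul, mul_inv_cancel_left₀ ha, hpr,
        sub_add_cancel]
    choose! α hα using h3
    apply Finset.card_le_card_of_injOn α
    · intro P hP
      obtain ⟨e, he, heq⟩ := hα P hP
      exact Finset.mem_coe.2 ((hG _ _).2 ⟨P, (Finset.mem_filter.1 hP).1, e, he, heq⟩)
    · intro P hP P' hP' heq
      obtain ⟨e, he, h4⟩ := hα P hP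
      obtain ⟨e', he', h5⟩ := hα P' hP'
      apply Pool.Agent.Helper53.PB.eq_of_rep_mem_span
      rw [Submodule.mem_span_singleton, h4, h5, heq]
      exact ⟨e * e'⁻¹, by rw [smul_smul, mul_assoc, inv_mul_cancel₀ he', mul_one]⟩
  obtain ⟨Z, hZd⟩ : ∃ Z : Finset (ℙ F V),
    Z = T.filter (fun P => ¬ QuadraticMap.polar Q r P.rep = 0) := ⟨_, rfl⟩
  have hmZ : ∀ z, z ∈ Z ↔ z ∈ T ∧ ¬ QuadraticMap.polar Q r z.rep = 0 := by
    intro z
    rw [hZd, Finset.mem_filter]
  have hZc : (Nat.card F - 1 - j) * Nat.card F ^ 3 ≤ Z.card := by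
    have h3 : T₀.card + Z.card = T.card := by
      rw [hT₀, hZd]
      exact Finset.card_filter_add_card_filter_not _
    rw [c.cT] at h3
    have hj := c.hj
    obtain ⟨k, hk⟩ : ∃ k, Nat.card F = k + 1 + j := ⟨Nat.card F - 1 - j, by omega⟩
    have h4 : Nat.card F - 1 - j = k := by omega
    rw [h4]
    have h5 : Nat.card F ^ 4 = k * Nat.card F ^ 3 + (1 + j) * Nat.card F ^ 3 := by
      rw [← add_mul, pow_succ', hk, add_assoc k]
    omega
  obtain ⟨κ, hκ⟩ : ∃ κ : ℙ F V → (b → F), ∀ z u, κ z u =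
    QuadraticMap.polar Q ((QuadraticMap.polar Q r z.rep)⁻¹ • z.rep) u := ⟨_, fun _ _ => rfl⟩
  have hbr : ∀ u ∈ B, QuadraticMap.polar Q r u = 0 := by
    intro u hu
    have h3 := hBL (Submodule.subset_span hu)
    rw [hLd] at h3
    exact mem_prp.1 h3.1
  have hκG : ∀ z ∈ Z, ∀ u : b, κ z u ∈ (G u)ᶜ := by
    intro z hz u
    obtain ⟨hzT, hz0⟩ := (hmZ z).1 hz
    rw [Finset.mem_compl, hG]
    rintro ⟨P, hP, e, he, heq⟩
    have h3 : QuadraticMap.polar Q r P.rep = 0 := by
      rw [heq, QuadraticMap.polar_smul_right, QuadraticMap.polar_sub_right,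
        QuadraticMap.polar_smul_right, hrr, hbr u (hbB u.2)]
      simp
    have h4 : P ≠ z := by
      rintro rfl
      exact hz0 h3
    apply hZ z hzT hz0 P hP h4
    rw [heq, QuadraticMap.polar_smul_right, QuadraticMap.polar_sub_right,
      QuadraticMap.polar_smul_right, hκ, QuadraticMap.polar_smul_left,
      QuadraticMap.polar_comm Q z.rep r]
    simp only [smul_eq_mul]
    rw [mul_assoc, mul_comm (QuadraticMap.polar Q z.rep _) (QuadraticMap.polar Q r z.rep),
      inv_mul_cancel_left₀ hz0, sub_self, mul_zero]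
  have hκi : Set.InjOn κ (Z : Set (ℙ F V)) := by
    intro z hz x hx heq
    obtain ⟨hzT, hz0⟩ := (hmZ z).1 hz
    obtain ⟨hxT, hx0⟩ := (hmZ x).1 hx
    obtain ⟨z', hz'⟩ : ∃ z' : V, z' = (QuadraticMap.polar Q r z.rep)⁻¹ • z.rep := ⟨_, rfl⟩
    obtain ⟨x', hx'⟩ : ∃ x' : V, x' = (QuadraticMap.polar Q r x.rep)⁻¹ • x.rep := ⟨_, rfl⟩
    have hz1 : QuadraticMap.polar Q r z' = 1 := by
      rw [hz', QuadraticMap.polar_smul_right, smul_eq_mul, inv_mul_cancel₀ hz0]
    have hx1 : QuadraticMap.polar Q r x' = 1 := by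
      rw [hx', QuadraticMap.polar_smul_right, smul_eq_mul, inv_mul_cancel₀ hx0]
    have hzQ : Q z' = 0 := by rw [hz', QuadraticMap.map_smul, c.sT z hzT, smul_zero]
    have hxQ : Q x' = 0 := by rw [hx', QuadraticMap.map_smul, c.sT x hxT, smul_zero]
    have h3 : L ≤ prp Q (z' - x') := by
      rw [← hBs, ← hbs, Submodule.span_le]
      intro u hu
      rw [SetLike.mem_coe, mem_prp, QuadraticMap.polar_sub_left, hz', hx']
      have h4 := congrFun heq ⟨u, hu⟩
      rw [hκ, hκ] at h4
      rw [h4, sub_self]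
    obtain ⟨a, ha⟩ : ∃ a : F, a = QuadraticMap.polar Q w (z' - x') := ⟨_, rfl⟩
    have h4 : z' - x' - a • r = 0 := by
      apply c.qd.nd
      intro v
      obtain ⟨l, hl⟩ : ∃ l : V, l = v - (QuadraticMap.polar Q w v -
        QuadraticMap.polar Q r v * QuadraticMap.polar Q w w) • r -
        QuadraticMap.polar Q r v • w := ⟨_, rfl⟩
      have hlr : QuadraticMap.polar Q r l = 0 := by
        rw [hl]
        simp only [QuadraticMap.polar_sub_right, QuadraticMap.polar_smul_right, hrr, hw',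
          smul_eq_mul]
        ring
      have hlw : QuadraticMap.polar Q w l = 0 := by
        rw [hl]
        simp only [QuadraticMap.polar_sub_right, QuadraticMap.polar_smul_right, hw,
          smul_eq_mul]
        ring
      have hlL : l ∈ L := by
        rw [hLd]
        exact ⟨mem_prp.2 hlr, mem_prp.2 hlw⟩
      have h5 := mem_prp.1 (h3 hlL)
      have h6 : QuadraticMap.polar Q (z' - x') r = 0 := by
        rw [QuadraticMap.polar_comm, QuadraticMap.polar_sub_right, hz1, hx1, sub_self]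
      have h7 : QuadraticMap.polar Q (z' - x') w = a := by
        rw [QuadraticMap.polar_comm, ha]
      have h8 : v = l + (QuadraticMap.polar Q w v -
        QuadraticMap.polar Q r v * QuadraticMap.polar Q w w) • r +
        QuadraticMap.polar Q r v • w := by
        rw [hl]
        abel
      rw [h8, QuadraticMap.polar_sub_left, QuadraticMap.polar_smul_left]
      simp only [QuadraticMap.polar_add_right, QuadraticMap.polar_smul_right, h5, h6, h7, hlr,
        hrr, hw', smul_eq_mul]
      ring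
    have h5 : x' = z' + (-a) • r := by
      rw [neg_smul, ← sub_eq_add_neg]
      rw [sub_eq_zero] at h4
      rw [← h4]
      abel
    have h6 : a = 0 := by
      rw [h5, QuadraticMap.map_add Q, hzQ, QuadraticMap.map_smul, hr,
        QuadraticMap.polar_smul_right, QuadraticMap.polar_comm Q z' r, hz1] at hxQ
      simpa using hxQ
    rw [h6, neg_zero, zero_smul, add_zero] at h5
    apply Pool.Agent.Helper53.PB.eq_of_rep_mem_span
    rw [Submodule.mem_span_singleton]
    refine ⟨QuadraticMap.polar Q r z.rep * (QuadraticMap.polar Q r x.rep)⁻¹, ?_⟩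
    rw [mul_smul, ← hx', h5, hz', smul_inv_smul₀ hz0]
  -- conclusion
  refine hZc.trans ?_
  have h3 : Z.card ≤ (Fintype.piFinset (fun u : b => (G u)ᶜ)).card := by
    apply Finset.card_le_card_of_injOn κ
    · intro z hz
      exact Finset.mem_coe.2 (Fintype.mem_piFinset.2 (hκG z hz))
    · exact hκi
  refine h3.trans ?_
  rw [Fintype.card_piFinset]
  have h4 : ∏ u : b, (G u)ᶜ.card ≤ ∏ _u : b, (Nat.card F - 1 - j) := by
    apply Finset.prod_le_prod'
    intro u _
    have h5 := hGc u (hbB u.2)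
    rw [Finset.card_compl, ← Nat.card_eq_fintype_card]
    omega
  refine h4.trans ?_
  rw [Finset.prod_const, Finset.card_univ]
  have hj := c.hj
  exact Nat.pow_le_pow_right (by omega) hb7

end Pool.Agent.Helper81.PQ
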